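import Pool.Agent.Helper72.MK.Goals

/-! Packet MK-BODY: the polar body of the difference body is a symmetric convex body. -/

open MeasureTheory Set Filter Topology
open scoped ENNReal
open Pool.Agent.Helper47.AQ

noncomputable section

namespace Pool.Agent.Helper86.MK

open Pool.Agent.Helper72.MK

theorem body : BODYStmt := by
  intro ι _ K h
  refine ⟨⟨?_, ?_, ?_⟩, ?_⟩
  · intro p hp q hq a b ha hb hab x hx y hy
    have h1 := hp x hx y hy
    have h2 := hq x hx y hy
    have h3 : ∑ i, (a • p + b • q) i * (x i - y i) =
        a * ∑ i, p i * (x i - y i) + b * ∑ i, q i * (x i - y i) := by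
      rw [Finset.mul_sum, Finset.mul_sum, ← Finset.sum_add_distrib]
      refine Finset.sum_congr rfl fun i _ => ?_
      simp only [Pi.add_apply, Pi.smul_apply, smul_eq_mul]
      ring
    rw [h3]
    nlinarith [mul_le_mul_of_nonneg_left h1 ha, mul_le_mul_of_nonneg_left h2 hb]
  · obtain ⟨ε, hε, h2⟩ := h.le_wd
    have hcl : IsClosed (dpol K) := by
      rw [h.dpol_eq]
      exact isClosed_le h.wd_continuous continuous_const
    refine IsCompact.of_isClosed_subset (isCompact_closedBall (0 : ι → ℝ) (1 / ε)) hcl ?_
    intro p hp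
    rw [h.dpol_eq] at hp
    rw [mem_closedBall_zero_iff]
    refine (pi_norm_le_iff_of_nonneg (by positivity)).2 fun i => ?_
    have h3 := h2 p
    have h4 : |p i| ≤ ∑ i, |p i| :=
      Finset.single_le_sum (f := fun i => |p i|) (fun i _ => abs_nonneg _) (Finset.mem_univ i)
    have h5 : wd K p ≤ 1 := hp
    rw [Real.norm_eq_abs, le_div_iff₀ hε]
    nlinarith
  · have h1 : IsOpen {p | wd K p < 1} := isOpen_lt h.wd_continuous continuous_const
    have h0 : wd K 0 = 0 := by
      unfold wd
      have : hs K 0 = 0 := by
        refine le_antisymm (h.hs_le _ _ fun x _ => by simp) ?_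
        obtain ⟨x, hx⟩ := h.nonempty
        have := h.le_hs 0 hx
        simpa using this
      rw [neg_zero, this, add_zero]
    refine ⟨0, mem_interior.2 ⟨{p | wd K p < 1}, ?_, h1, ?_⟩⟩
    · intro p hp
      rw [h.dpol_eq]
      have hp' : wd K p < 1 := hp
      exact hp'.le
    · show wd K 0 < 1
      rw [h0]; exact one_pos
  · intro p hp x hx y hy
    have h1 := hp y hy x hx
    refine le_trans (le_of_eq ?_) h1
    refine Finset.sum_congr rfl fun i _ => ?_
    simp only [Pi.neg_apply]
    ring

end Pool.Agent.Helper86.MK
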